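import Pool.Agent.Q277.WSum.Rec

/-!
`n ∣ ∑_{k<n} (-1)^k (42 k + 37) a(k)`.
-/

set_option autoImplicit false

namespace Pool.Agent.Q277.WSum

open Finset Pool.Agent.Q267.Seven

theorem U_step (n : ℕ) (hn : 1 ≤ n) (K : ℕ) : ∃ X : ℤ,
    8 * ((K : ℤ) + 1) * U n (2 * (K + 1)) + (2 * K + 1) * U n (2 * K) = n * X := by
  obtain ⟨h1, h2, h3, h4⟩ := rels n K hn
  have hU := U_exact n (2 * K)
  push_cast at hU
  rw [show 2 * (K + 1) = 2 * K + 2 by ring]
  set A := (n.choose (2 * K + 1) : ℤ)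
  set B := ((n - 1).choose (2 * K) : ℤ)
  set E := ((n + 1).choose (2 * K + 2) : ℤ)
  set D := ((n - 1).choose (2 * K + 1) : ℤ)
  set F := (n.choose (2 * K + 2) : ℤ)
  set y := (n : ℤ)
  set I := (K : ℤ)
  refine ⟨-(-1) ^ n * (2 * (E * D - F * A) + A * (2 * E - 6 * A + 5 * B)), ?_⟩
  have hI : 2 * (I + 1) ≠ 0 := by positivity
  apply mul_left_cancel₀ hI
  linear_combination hU - (-1) ^ n * (A * (10 * I + 8) * h1 + 2 * y * A * h2 + 2 * y * A * h3
    + 2 * y * D * h2 - 2 * y * A * h4)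

theorem s_rec' (K : ℕ) : 4 * (2 * (2 * (K : ℤ) + 1) * s (K + 1) - K * s K) =
    (21 * (K : ℤ) + 8) * (K.centralBinom : ℤ) ^ 2 := by
  rcases K with _ | N
  · simp [s, Nat.centralBinom]
  · have := s_rec N
    push_cast
    linear_combination this

theorem P_dvd (n : ℕ) (hn : 1 ≤ n) (K : ℕ) : (n : ℤ) ∣ (∑ k ∈ range K, (42 * (k : ℤ) + 16) *
    ((-16) ^ k * (k.centralBinom : ℤ) ^ 2 * U n (2 * k)))
      - 8 * K * s K * (-16) ^ K * U n (2 * K) := by
  induction K with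
  | zero => simp
  | succ K ih =>
    obtain ⟨X, hX⟩ := U_step n hn K
    have hs := s_rec' K
    obtain ⟨c, hc⟩ := ih
    refine ⟨c + 16 * (-16) ^ K * s (K + 1) * X, ?_⟩
    rw [sum_range_succ]
    push_cast
    rw [pow_succ]
    linear_combination hc + 16 * (-16) ^ K * s (K + 1) * hX - 2 * (-16) ^ K * U n (2 * K) * hs

theorem U_zero (n j : ℕ) (h : n ≤ j) : U n j = 0 := by
  unfold U
  refine sum_eq_zero fun i hi => ?_
  have : i < n := by simpa using hi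
  rw [Nat.choose_eq_zero_of_lt (by omega)]
  simp

theorem main (n : ℕ) (hn : 1 ≤ n) :
    (n : ℤ) ∣ ∑ k ∈ range n, (-1 : ℤ) ^ k * ((42 * (k : ℤ) + 37) * a k) := by
  obtain ⟨m, hm⟩ : ∃ m, n ≤ 2 * m + 1 ∧ n ≤ 2 * (m + 1) := ⟨n, by omega, by omega⟩
  have e1 : ∑ i ∈ range n, (-1 : ℤ) ^ i * ((42 * (i : ℤ) + 37) * a i) =
      ∑ k ∈ range (m + 1), (-16 : ℤ) ^ k * (k.centralBinom : ℤ) ^ 2 *
        (21 * V n (2 * k) + (42 * (k : ℤ) + 16) * U n (2 * k)) := by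
    have : ∀ i ∈ range n, (-1 : ℤ) ^ i * ((42 * (i : ℤ) + 37) * a i) =
        ∑ k ∈ range (m + 1), (-1 : ℤ) ^ i * ((42 * (i : ℤ) + 37) *
          ((-16 : ℤ) ^ k * (k.centralBinom : ℤ) ^ 2 * (i.choose (2 * k) : ℤ) ^ 2)) := by
      intro i hi
      have hi' : i < n := by simpa using hi
      rw [a_eq m i (by omega), mul_sum, mul_sum]
    rw [sum_congr rfl this, sum_comm]
    refine sum_congr rfl fun k _ => ?_
    unfold U V
    rw [mul_sum, mul_sum, ← sum_add_distrib, mul_sum]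
    refine sum_congr rfl fun i _ => ?_
    push_cast
    ring
  have e2 : ∑ k ∈ range (m + 1), (-16 : ℤ) ^ k * (k.centralBinom : ℤ) ^ 2 *
        (21 * V n (2 * k) + (42 * (k : ℤ) + 16) * U n (2 * k)) =
      ∑ k ∈ range (m + 1), (21 * (-16 : ℤ) ^ k * (k.centralBinom : ℤ)) *
        ((k.centralBinom : ℤ) * V n (2 * k)) +
      ∑ k ∈ range (m + 1), (42 * (k : ℤ) + 16) *
        ((-16) ^ k * (k.centralBinom : ℤ) ^ 2 * U n (2 * k)) := by
    rw [← sum_add_distrib]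
    refine sum_congr rfl fun k _ => ?_
    ring
  rw [e1, e2]
  refine dvd_add (dvd_sum fun k _ => Dvd.dvd.mul_left (V_dvd n hn k) _) ?_
  have := P_dvd n hn (m + 1)
  rw [U_zero n (2 * (m + 1)) hm.2, mul_zero, sub_zero] at this
  exact this

end Pool.Agent.Q277.WSum
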