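import Pool.Agent.Q267.Seven.Sums

/-!
Exact recursions in `j` for `U n j = ∑_{i<n} (-1)^i (i choose j)^2` and
`V n j = ∑_{i<n} (-1)^i (2 i - j + 1) (i choose j)^2`, for every `n`.
-/

set_option autoImplicit false

namespace Pool.Agent.Q277.WSum

open Finset Pool.Agent.Q267.Seven

theorem U_exact (n j : ℕ) : ((j : ℤ) + 2) * (4 * ((j : ℤ) + 2) * U n (j + 2) + ((j : ℤ) + 1) * U n j) =
    -(-1) ^ n * ((n.choose (j + 1) : ℤ) ^ 2 *
      (2 * (n : ℤ) ^ 2 - (6 * j + 8) * n + (j + 1) * (5 * j + 8))) := by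
  have h := alt_tele (fun n => (n.choose (j + 1) : ℤ) ^ 2 * (2 * (n : ℤ) ^ 2 - (6 * j + 8) * n
    + (j + 1) * (5 * j + 8))) n
  have h2 : ∑ i ∈ range n, (-1 : ℤ) ^ i * (((j : ℤ) + 2) * (4 * ((j : ℤ) + 2)
      * (i.choose (j + 2) : ℤ) ^ 2 + ((j : ℤ) + 1) * (i.choose j : ℤ) ^ 2)) =
      ((j : ℤ) + 2) * (4 * ((j : ℤ) + 2) * U n (j + 2) + ((j : ℤ) + 1) * U n j) := by
    unfold U
    rw [mul_sum, mul_sum, ← sum_add_distrib, mul_sum]
    refine sum_congr rfl fun i _ => ?_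
    ring
  rw [← h2]
  have h3 : ∀ i ∈ range n, (-1 : ℤ) ^ i * (((j : ℤ) + 2) * (4 * ((j : ℤ) + 2)
      * (i.choose (j + 2) : ℤ) ^ 2 + ((j : ℤ) + 1) * (i.choose j : ℤ) ^ 2)) =
      (-1 : ℤ) ^ i * ((i.choose (j + 1) : ℤ) ^ 2 * (2 * (i : ℤ) ^ 2 - (6 * j + 8) * i
        + (j + 1) * (5 * j + 8)) + ((i + 1).choose (j + 1) : ℤ) ^ 2 *
        (2 * ((i + 1 : ℕ) : ℤ) ^ 2 - (6 * j + 8) * ((i + 1 : ℕ) : ℤ)
        + (j + 1) * (5 * j + 8))) := by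
    intro i _
    rw [certU]
    push_cast
    ring
  rw [sum_congr rfl h3, h]
  simp

theorem V_exact (n j : ℕ) : ((j : ℤ) + 2) ^ 2 * (4 * ((j : ℤ) + 1) * V n (j + 2)
      + ((j : ℤ) + 2) * V n j) =
    -(-1) ^ n * ((n.choose (j + 1) : ℤ) ^ 2 * (((j : ℤ) + 1) * (4 * (n : ℤ) ^ 3
      - (14 * j + 20) * (n : ℤ) ^ 2 + 4 * (j + 1) * (4 * j + 7) * n
      - (j + 2) * (5 * j ^ 2 + 8 * j + 2)))) := by
  have h := alt_tele (fun n => (n.choose (j + 1) : ℤ) ^ 2 * (((j : ℤ) + 1) * (4 * (n : ℤ) ^ 3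
      - (14 * j + 20) * (n : ℤ) ^ 2 + 4 * (j + 1) * (4 * j + 7) * n
      - (j + 2) * (5 * j ^ 2 + 8 * j + 2)))) n
  have h2 : ∑ i ∈ range n, (-1 : ℤ) ^ i * (((j : ℤ) + 2) ^ 2 * (4 * ((j : ℤ) + 1)
      * ((2 * (i : ℤ) - j - 1) * (i.choose (j + 2) : ℤ) ^ 2)
      + ((j : ℤ) + 2) * ((2 * (i : ℤ) - j + 1) * (i.choose j : ℤ) ^ 2))) =
      ((j : ℤ) + 2) ^ 2 * (4 * ((j : ℤ) + 1) * V n (j + 2) + ((j : ℤ) + 2) * V n j) := by
    unfold V
    rw [mul_sum, mul_sum, ← sum_add_distrib, mul_sum]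
    refine sum_congr rfl fun i _ => ?_
    push_cast
    ring
  rw [← h2]
  have h3 : ∀ i ∈ range n, (-1 : ℤ) ^ i * (((j : ℤ) + 2) ^ 2 * (4 * ((j : ℤ) + 1)
      * ((2 * (i : ℤ) - j - 1) * (i.choose (j + 2) : ℤ) ^ 2)
      + ((j : ℤ) + 2) * ((2 * (i : ℤ) - j + 1) * (i.choose j : ℤ) ^ 2))) =
      (-1 : ℤ) ^ i * ((i.choose (j + 1) : ℤ) ^ 2 * (((j : ℤ) + 1) * (4 * (i : ℤ) ^ 3
      - (14 * j + 20) * (i : ℤ) ^ 2 + 4 * (j + 1) * (4 * j + 7) * i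
      - (j + 2) * (5 * j ^ 2 + 8 * j + 2))) + ((i + 1).choose (j + 1) : ℤ) ^ 2 *
        (((j : ℤ) + 1) * (4 * ((i + 1 : ℕ) : ℤ) ^ 3
      - (14 * j + 20) * ((i + 1 : ℕ) : ℤ) ^ 2 + 4 * (j + 1) * (4 * j + 7) * ((i + 1 : ℕ) : ℤ)
      - (j + 2) * (5 * j ^ 2 + 8 * j + 2)))) := by
    intro i _
    rw [certV]
    push_cast
    ring
  rw [sum_congr rfl h3, h]
  simp

/-- `A = C(n,2i+1)`, `B = C(n-1,2i)`, `E = C(n+1,2i+2)`, `F = C(n,2i+2)`, `D = C(n-1,2i+1)`. -/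
theorem rels (n i : ℕ) (hn : 1 ≤ n) :
    (2 * (i : ℤ) + 1) * (n.choose (2 * i + 1) : ℤ) = n * ((n - 1).choose (2 * i) : ℤ) ∧
    ((n : ℤ) + 1) * (n.choose (2 * i + 1) : ℤ) = 2 * (i + 1) * ((n + 1).choose (2 * i + 2) : ℤ) ∧
    (n.choose (2 * i + 1) : ℤ) = ((n - 1).choose (2 * i) : ℤ) + ((n - 1).choose (2 * i + 1) : ℤ) ∧
    (n : ℤ) * ((n - 1).choose (2 * i + 1) : ℤ) = 2 * (i + 1) * (n.choose (2 * i + 2) : ℤ) := by
  obtain ⟨N, rfl⟩ : ∃ N, n = N + 1 := ⟨n - 1, by omega⟩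
  simp only [Nat.add_sub_cancel]
  refine ⟨?_, ?_, ?_, ?_⟩
  · have h := ch2 N (2 * i)
    push_cast at h ⊢
    linear_combination -h
  · have h := ch2 (N + 1) (2 * i + 1)
    push_cast at h ⊢
    rw [show 2 * i + 1 + 1 = 2 * i + 2 by ring] at h
    linear_combination h
  · rw [Nat.choose_succ_succ]
    push_cast
    ring
  · have h := ch2 N (2 * i + 1)
    push_cast at h ⊢
    rw [show 2 * i + 1 + 1 = 2 * i + 2 by ring] at h
    linear_combination h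

/-- `n ∣ C(2k,k) V n (2k)`. -/
theorem V_dvd (n : ℕ) (hn : 1 ≤ n) (k : ℕ) : (n : ℤ) ∣ (k.centralBinom : ℤ) * V n (2 * k) := by
  induction k with
  | zero =>
    have h : V n 0 = -(-1) ^ n * n := by
      unfold V
      clear hn
      induction n with
      | zero => simp
      | succ n ih =>
        rw [sum_range_succ, ih, pow_succ]
        simp
        ring
    rw [show 2 * 0 = 0 by rfl, h]
    simp
  | succ i ih =>
    obtain ⟨h1, h2, h3, h4⟩ := rels n i hn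
    have hV := V_exact n (2 * i)
    have hc := Nat.succ_mul_centralBinom_succ i
    have hc' : (((i + 1) * (i + 1).centralBinom : ℕ) : ℤ) =
        ((2 * (2 * i + 1) * i.centralBinom : ℕ) : ℤ) := by rw [hc]
    obtain ⟨cat, hcat⟩ : ∃ c : ℤ, (i.centralBinom : ℤ) = (i + 1) * c := by
      refine ⟨(catalan i : ℤ), ?_⟩
      have := succ_mul_catalan_eq_centralBinom i
      rw [← this]
      push_cast
      ring
    push_cast at hc' hV
    rw [show 2 * (i + 1) = 2 * i + 2 by ring]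
    set A := (n.choose (2 * i + 1) : ℤ)
    set B := ((n - 1).choose (2 * i) : ℤ)
    set E := ((n + 1).choose (2 * i + 2) : ℤ)
    set D := ((n - 1).choose (2 * i + 1) : ℤ)
    set F := (n.choose (2 * i + 2) : ℤ)
    set y := (n : ℤ)
    set I := (i : ℤ)
    set W := V n (2 * i + 2)
    set W0 := V n (2 * i)
    have key : ((i + 1).centralBinom : ℤ) * W + (i.centralBinom : ℤ) * W0 =
        y * (-(-1) ^ n * cat * (2 * (2 * I + 1) * E ^ 2 - (7 * y + 3) * B * E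
          + (8 * y - 5 * I + 1) * A * B)) := by
      have hI : 8 * (I + 1) ^ 3 ≠ 0 := by positivity
      apply mul_left_cancel₀ hI
      have ht : A * B * (4 * y ^ 3 - (28 * I + 20) * y ^ 2 + 4 * (2 * I + 1) * (8 * I + 7) * y
          - (2 * I + 2) * (20 * I ^ 2 + 16 * I + 2)) = 8 * (I + 1) ^ 2 *
          (2 * (2 * I + 1) * E ^ 2 - (7 * y + 3) * B * E + (8 * y - 5 * I + 1) * A * B) := by
        linear_combination (-4 * A * (y + 1) ^ 2) * h1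
          + (4 * (2 * I + 1) * ((y + 1) * A + 2 * (I + 1) * E) - 4 * (I + 1) * (7 * y + 3) * B) * h2
      linear_combination (i.centralBinom : ℤ) * hV + 8 * (I + 1) ^ 2 * W * hc'
        - (-1) ^ n * A ^ 2 * (2 * I + 1) * (4 * y ^ 3 - (28 * I + 20) * y ^ 2
          + 4 * (2 * I + 1) * (8 * I + 7) * y - (2 * I + 2) * (20 * I ^ 2 + 16 * I + 2)) * hcat
        - (-1) ^ n * (I + 1) * cat * A * (4 * y ^ 3 - (28 * I + 20) * y ^ 2
          + 4 * (2 * I + 1) * (8 * I + 7) * y - (2 * I + 2) * (20 * I ^ 2 + 16 * I + 2)) * h1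
        - (-1) ^ n * (I + 1) * cat * y * ht
    have : ((i + 1).centralBinom : ℤ) * W = y * (-(-1) ^ n * cat * (2 * (2 * I + 1) * E ^ 2
        - (7 * y + 3) * B * E + (8 * y - 5 * I + 1) * A * B)) - (i.centralBinom : ℤ) * W0 := by
      linear_combination key
    rw [this]
    exact dvd_sub (Dvd.intro _ rfl) ih

end Pool.Agent.Q277.WSum
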